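import Pool.Agent.Helper28.H2.Cfg
import Pool.Agent.Helper94.HN.Ref

/-!
# The reference configuration of the dynamics (type 2)
-/

namespace Pool.Agent.Helper94.H2

open Pool.Agent.Helper28.HN (I aff cr Un En)
open Pool.Agent.Helper28.H2 Pool.Agent.Helper24.H2 Pool.Agent.Helper24.HN Pool.Agent.Helper94.HN

section quad

variable {m : ℕ} {S : Type*} [CommRing S] (c : Ix m → S)

theorem tf_symm (x y y' : I m → S) : tf c x y y' = tf c x y' y := by
  unfold tf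
  refine Finset.sum_congr rfl fun i _ => ?_
  rw [Finset.sum_comm]
  refine Finset.sum_congr rfl fun j _ => Finset.sum_congr rfl fun k _ => ?_
  ring

theorem tf_line (x y a b : I m → S) (z : S) :
    tf c x y (fun i => a i + z * b i) = tf c x y a + z * tf c x y b := by
  unfold tf
  simp only [Finset.mul_sum, ← Finset.sum_add_distrib]
  refine Finset.sum_congr rfl fun i _ => Finset.sum_congr rfl fun j _ => Finset.sum_congr rfl fun k _ => ?_
  ring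

theorem Fh_eq (x : I m → S) (z : S) :
    Fh c x z = Ah c x * z ^ 2 + 2 * Bh c x * z + Ch c x := by
  have e : yh c x z = fun i => Y0 c x i + z * Y1 c x i := rfl
  rw [Fh, e, tf_line, tf_symm c x _ (Y0 c x), tf_symm c x _ (Y1 c x), tf_line, tf_line, Ah, Bh, Ch,
    tf_symm c x (Y1 c x) (Y0 c x)]
  ring

end quad

variable {p : ℕ} [Fact p.Prime] {m : ℕ}

/-- The factors of `Pp` are units. -/
theorem units_of_Pp (c : Ix m → ℤ_[p]) (k : Un m → ℤ_[p]) (h : IsUnit (Pp c k)) :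
    ‖(Mx c (aff fun i => k (.inl i))).det‖ = 1 ∧
    (∀ a b : Fin (m + 2), a ≠ b → ‖k (.inr a) - k (.inr b)‖ = 1) ∧
    (∀ a : Fin (m + 2), ‖(Nx c (yh c (aff fun i => k (.inl i)) (k (.inr a)))).det‖ = 1) ∧
    (∀ a : Fin (m + 2), a ≠ 0 → ‖kah c (aff fun i => k (.inl i)) (k (.inr a))‖ = 1) ∧
    (∀ a : Fin (m + 2), a ≠ 0 → ‖th c (aff fun i => k (.inl i)) (k (.inr a))‖ = 1) ∧
    (∀ a : Fin (m + 2), ‖(psP c (aff fun i => k (.inl i))).derivative.eval (k (.inr a))‖ = 1) ∧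
    (∀ a b : Fin (m + 2), a ≠ b → ¬ (a = 1 ∧ b = Fin.last (m + 1)) →
      ‖qh c (aff fun i => k (.inl i)) (xz c (fun i => k (.inl i)) (k (.inr a))) (k (.inr b))‖ = 1) ∧
    ‖(Vm c k).det‖ = 1 := by
  unfold Pp at h
  rw [IsUnit.mul_iff, IsUnit.mul_iff, IsUnit.mul_iff, IsUnit.mul_iff, IsUnit.mul_iff,
    IsUnit.mul_iff, IsUnit.mul_iff] at h
  obtain ⟨⟨⟨⟨⟨⟨⟨h1, h2⟩, h3⟩, h4⟩, h4'⟩, h5⟩, h6⟩, h7⟩ := h
  refine ⟨PadicInt.isUnit_iff.1 h1, fun a b hab => ?_, fun a => PadicInt.isUnit_iff.1 (unit_prod h3 a),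
    fun a ha => ?_, fun a ha => ?_,
    fun a => PadicInt.isUnit_iff.1 (unit_prod h5 a), fun a b hab hn => ?_,
    PadicInt.isUnit_iff.1 h7⟩
  · have h8 := unit_prod (unit_prod h2 a) b
    rw [if_neg hab] at h8
    exact PadicInt.isUnit_iff.1 h8
  · obtain ⟨b, rfl⟩ := Fin.exists_succ_eq.2 ha
    exact PadicInt.isUnit_iff.1 (unit_prod h4 b)
  · obtain ⟨b, rfl⟩ := Fin.exists_succ_eq.2 ha
    exact PadicInt.isUnit_iff.1 (unit_prod h4' b)
  · have h8 := unit_prod (unit_prod h6 a) b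
    rw [if_neg (not_or.2 ⟨hab, hn⟩)] at h8
    exact PadicInt.isUnit_iff.1 h8

/-- The form is small at the base point. -/
theorem norm_Fh_le (c : Ix m → ℤ_[p]) (k : Un m → ℤ_[p]) (h : Cfg c k) :
    ‖Ch c (aff fun i => k (.inl i))‖ ≤ (p : ℝ) ^ (-2 : ℤ) ∧
    ∀ z, ‖Fh c (aff fun i => k (.inl i)) z‖ ≤ (p : ℝ) ^ (-2 : ℤ) := by
  have h1 : Ch c (aff fun i => k (.inl i)) = -(k (.inr 0) ^ 2 * Ah c (aff fun i => k (.inl i)) +
      (2 * k (.inr 0)) * Bh c (aff fun i => k (.inl i))) := by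
    have h2 := h.F0
    rw [Fh_eq] at h2
    linear_combination h2
  have h3 : ‖Ch c (aff fun i => k (.inl i))‖ ≤ (p : ℝ) ^ (-2 : ℤ) := by
    rw [h1, norm_neg]
    exact norm_add_le' (norm_mul_le' _ h.hA) (norm_mul_le' _ h.hB)
  refine ⟨h3, fun z => ?_⟩
  rw [Fh_eq]
  have h4 : Ah c (aff fun i => k (.inl i)) * z ^ 2 + 2 * Bh c (aff fun i => k (.inl i)) * z +
      Ch c (aff fun i => k (.inl i)) = z ^ 2 * Ah c (aff fun i => k (.inl i)) +
      (2 * z) * Bh c (aff fun i => k (.inl i)) + Ch c (aff fun i => k (.inl i)) := by ring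
  rw [h4]
  exact norm_add_le' (norm_add_le' (norm_mul_le' _ h.hA) (norm_mul_le' _ h.hB)) h3

theorem exists_ref (hp : p ≠ 2) (hm : 4 ≤ m) (c : Ix m → ℤ_[p])
    (k : Un m → ℤ_[p]) (h : Cfg c k) (L : Loc p (m + 1))
    (hA : ∀ x, L.A x = (Mx c (aff x)).det * Ah c (aff x))
    (hB : ∀ x, L.B x = (Mx c (aff x)).det * (2 * Bh c (aff x)))
    (hC : ∀ x, L.C x = (Mx c (aff x)).det * Ch c (aff x))
    (hxi : ∀ x z, L.xi x z = vh c (yh c (aff x) z))
    (hpsi : ∀ x z, L.psi x z = 2 * th c (aff x) z * psh c (aff x) z)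
    (hkap : ∀ x z, L.kap x z = th c (aff x) z * kah c (aff x) z)
    (hsl : ∀ x z, psh c (aff x) z = 0 → L.sl x z z =
      2 * th c (aff x) z * (psP c (aff x)).derivative.eval z)
    (hd : ∀ x v, ∃ d, (∀ z, L.dF x v z = qh c (aff x) (Fin.cons 0 v) z + d * Fh c (aff x) z) ∧
      L.dA x v = qa c (aff x) (Fin.cons 0 v) + d * Ah c (aff x)) :
    ∃ R : Ref L (Fin (m + 2)), R.u0 = (fun i => k (.inl i)) ∧
      R.z = (fun a => k (.inr a)) ∧ R.y = 0 ∧ R.j = Fin.last (m + 1) ∧ R.m = 1 ∧ R.l = 2 := by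
  obtain ⟨hD, hz, hN, hk, hr, hps, hq, hV⟩ := units_of_Pp c k h.hP
  obtain ⟨hCs, hFs⟩ := norm_Fh_le c k h
  have hp0 : (0 : ℝ) < p := by exact_mod_cast (Fact.out : p.Prime).pos
  have hp1 : (1 : ℝ) < p := by exact_mod_cast (Fact.out : p.Prime).one_lt
  have hp12 : (p : ℝ) ^ (-2 : ℤ) < (p : ℝ) ^ (-1 : ℤ) := zpow_lt_zpow_right₀ hp1 (by norm_num)
  have hp01 : (p : ℝ) ^ (-1 : ℤ) < 1 := zpow_lt_one_of_neg₀ hp1 (by norm_num)
  have hxz : ∀ a : Fin (m + 2), (Fin.cons 0 (L.xi (fun i => k (.inl i)) (k (.inr a))) : I m → ℤ_[p]) =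
      xz c (fun i => k (.inl i)) (k (.inr a)) := by
    intro a
    rw [hxi]
    rfl
  have hFF : ∀ z, L.F (fun i => k (.inl i)) z =
      (Mx c (aff fun i => k (.inl i))).det * Fh c (aff fun i => k (.inl i)) z := by
    intro z
    rw [Fh_eq, Loc.F, hA, hB, hC]
    ring
  have hmul : ∀ a : ℤ_[p], ‖(Mx c (aff fun i => k (.inl i))).det * a‖ = ‖a‖ := by
    intro a
    rw [norm_mul, hD, one_mul]
  have hsm : ∀ (d z : ℤ_[p]), ‖d * Fh c (aff fun i => k (.inl i)) z‖ ≤ (p : ℝ) ^ (-2 : ℤ) :=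
    fun d z => norm_mul_le' _ (hFs z)
  have hz' : ∀ a b : Fin (m + 2), (a : ℕ) ≠ b → a ≠ b := fun a b hab h' => hab (by rw [h'])
  have v1 : ((1 : Fin (m + 2)) : ℕ) = 1 := by
    simp
  have v2 : ((2 : Fin (m + 2)) : ℕ) = 2 := by
    have : (2 : Fin (m + 2)) = ⟨2, by omega⟩ := by
      apply Fin.ext
      simp
      omega
    rw [this]
  refine ⟨⟨fun i => k (.inl i), fun a => k (.inr a), 0, Fin.last (m + 1), 1, 2, ?_, ?_, ?_, ?_, ?_, ?_,
    hz, ?_, ?_, ?_, ?_, ?_, ?_, ?_, ?_, ?_⟩, rfl, rfl, rfl, rfl, rfl, rfl⟩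
  · refine hz' _ _ ?_
    rw [v1, Fin.val_last]
    omega
  · refine hz' _ _ ?_
    rw [v1, v2]
    omega
  · refine hz' _ _ ?_
    rw [v2, Fin.val_last]
    omega
  · refine hz' _ _ ?_
    rw [Fin.val_last, Fin.val_zero]
    omega
  · refine hz' _ _ ?_
    rw [v1, Fin.val_zero]
    omega
  · refine hz' _ _ ?_
    rw [v2, Fin.val_zero]
    omega
  · intro a _
    rw [hpsi, h.psi, mul_zero]
  · intro a ha
    rw [hsl _ _ (h.psi a), norm_mul, norm_mul, norm_two hp, one_mul, hr a ha, one_mul]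
    exact hps a
  · intro a ha
    rw [hkap, norm_mul, hr a ha, one_mul]
    exact hk a ha
  · intro a b hab hn
    obtain ⟨d, hd1, -⟩ := hd (fun i => k (.inl i)) (L.xi (fun i => k (.inl i)) (k (.inr b)))
    have h1 := hd1 (k (.inr a))
    rw [hxz] at h1
    rw [h1]
    have h2 : ‖qh c (aff fun i => k (.inl i)) (xz c (fun i => k (.inl i)) (k (.inr b)))
        (k (.inr a))‖ = 1 := by
      refine hq b a (Ne.symm hab) ?_
      rintro ⟨h3, h4⟩
      rcases hn with h5 | h5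
      · exact h5 h4
      · exact h5 h3
    rw [norm_add_eq, h2]
    rw [h2]
    exact (hsm _ _).trans_lt (hp12.trans hp01)
  · obtain ⟨d, hd1, -⟩ := hd (fun i => k (.inl i)) (L.xi (fun i => k (.inl i)) (k (.inr 1)))
    have h1 := hd1 (k (.inr (Fin.last (m + 1))))
    rw [hxz] at h1
    rw [h1, norm_add_eq, h.hq]
    rw [h.hq]
    exact (hsm _ _).trans_lt hp12
  · rw [hA]
    exact norm_mul_le' _ h.hA
  · rw [hB]
    exact norm_mul_le' _ (norm_mul_le' _ h.hB)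
  · rw [hC]
    exact norm_mul_le' _ hCs
  · obtain ⟨d, hd1, hd2⟩ := hd (fun i => k (.inl i)) (L.xi (fun i => k (.inl i)) (k (.inr 0)))
    have h1 := hd1 (k (.inr (Fin.last (m + 1))))
    rw [hxz] at h1 hd2
    rw [← h.hst, hFF, hA, h1, hd2]
    conv_rhs => rw [← hmul]
    congr 1
    ring

end Pool.Agent.Helper94.H2
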