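import Pool.Agent.Helper94.H2.Dir
import Pool.Agent.Helper28.H2.Cfg
import Pool.Agent.Helper82.H2.Diff

/-!
# The local data of the chart: the interface (type 2)
-/

namespace Pool.Agent.Helper94.H2

open Pool.Agent.Helper28.HN (I aff cr)
open Pool.Agent.Helper24.H2 Pool.Agent.Helper24.HN

variable {p : ℕ} [Fact p.Prime] {m : ℕ}

/-- The relation of the derivatives with `qh`. -/
theorem loc_dir (c : Ix m → ℤ_[p]) (x v : V p (m + 1)) :
    ∃ d, (∀ z, (loc c).dF x v z = qh c (aff x) (Fin.cons 0 v) z + d * Fh c (aff x) z) ∧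
      (loc c).dA x v = qa c (aff x) (Fin.cons 0 v) + d * Ah c (aff x) := by
  obtain ⟨d, hd⟩ := Pool.Agent.Helper82.H2.diff_F c (aff x) (Fin.cons 0 v)
  refine ⟨2 * d + (Mx (fun e => Polynomial.C (c e)) (lin' x v)).det.derivative.eval 0, fun z => ?_, ?_⟩
  · rw [dF_line]
    have h := (hd z).1
    unfold lin'
    linear_combination h
  · rw [dA_line]
    have h := (hd 0).2
    unfold lin'
    linear_combination h

/-- The local data. -/
theorem exists_loc {p : ℕ} [Fact p.Prime] {m : ℕ} (c : Ix m → ℤ_[p]) : ∃ L : Loc p (m + 1),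
    (∀ x, L.A x = (Mx c (aff x)).det * Ah c (aff x)) ∧
    (∀ x, L.B x = (Mx c (aff x)).det * (2 * Bh c (aff x))) ∧
    (∀ x, L.C x = (Mx c (aff x)).det * Ch c (aff x)) ∧
    (∀ x z, L.xi x z = vh c (yh c (aff x) z)) ∧
    (∀ x z, L.psi x z = 2 * th c (aff x) z * psh c (aff x) z) ∧
    (∀ x z, L.kap x z = th c (aff x) z * kah c (aff x) z) ∧
    (∀ x z, psh c (aff x) z = 0 → L.sl x z z =
      2 * th c (aff x) z * (psP c (aff x)).derivative.eval z) ∧
    (∀ x v, ∃ d, (∀ z, L.dF x v z = qh c (aff x) (Fin.cons 0 v) z + d * Fh c (aff x) z) ∧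
      L.dA x v = qa c (aff x) (Fin.cons 0 v) + d * Ah c (aff x)) :=
  ⟨loc c, loc_A c, loc_B c, loc_C c, loc_xi c, loc_psi c, loc_kap c, loc_sl c, loc_dir c⟩

end Pool.Agent.Helper94.H2
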