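import Pool.Agent.Helper24.H2.Defs

/-!
# Ring homomorphisms and the functions of the chart
-/

namespace Pool.Agent.Helper94.H2

open Pool.Agent.Helper28.HN (I aff cr)
open Pool.Agent.Helper24.H2

variable {m : ℕ} {S S' : Type*} [CommRing S] [CommRing S'] (φ : S →+* S')

theorem map_single (i : I m) : (fun j => φ ((Pi.single i 1 : I m → S) j)) = Pi.single i 1 := by
  funext j
  by_cases h : j = i
  · subst h
    rw [Pi.single_eq_same, Pi.single_eq_same, map_one]
  · rw [Pi.single_eq_of_ne h, Pi.single_eq_of_ne h, map_zero]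

theorem map_bf (c : Ix m → S) (r : Bi m) (x y : I m → S) :
    φ (bf c r x y) = bf (fun e => φ (c e)) r (fun i => φ (x i)) (fun i => φ (y i)) := by
  simp only [bf, map_sum, map_mul]

theorem map_tf (c : Ix m → S) (x y y' : I m → S) :
    φ (tf c x y y') = tf (fun e => φ (c e)) (fun i => φ (x i)) (fun i => φ (y i))
      (fun i => φ (y' i)) := by
  simp only [tf, map_sum, map_mul, map_add]

theorem map_sf (c : Ix m → S) (x x' y : I m → S) :
    φ (sf c x x' y) = sf (fun e => φ (c e)) (fun i => φ (x i)) (fun i => φ (x' i))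
      (fun i => φ (y i)) := by
  simp only [sf, map_sum, map_mul, map_add]

theorem map_lx (c : Ix m → S) (r : Fin m) (x y : I m → S) :
    φ (lx c r x y) = lx (fun e => φ (c e)) r (fun i => φ (x i)) (fun i => φ (y i)) := by
  unfold lx
  split_ifs
  · exact map_bf φ _ _ _ _
  · exact map_sf φ _ _ _ _

theorem map_ly (c : Ix m → S) (r : Fin m) (x y : I m → S) :
    φ (ly c r x y) = ly (fun e => φ (c e)) r (fun i => φ (x i)) (fun i => φ (y i)) := by
  unfold ly
  split_ifs
  · exact map_bf φ _ _ _ _
  · exact map_tf φ _ _ _ _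

theorem map_dl (c : Ix m → S) (r : Fin m) (x ξ y : I m → S) :
    φ (dl c r x ξ y) = dl (fun e => φ (c e)) r (fun i => φ (x i)) (fun i => φ (ξ i))
      (fun i => φ (y i)) := by
  unfold dl
  split_ifs
  · exact map_bf φ _ _ _ _
  · rw [map_mul, map_ofNat, map_sf]

theorem map_aff (u : Fin (m + 1) → S) : (fun i => φ (aff u i)) = aff (fun i => φ (u i)) := by
  funext i
  refine Fin.cases ?_ (fun i => ?_) i
  · simp [aff]
  · simp [aff]

theorem map_Mx (c : Ix m → S) (x : I m → S) :
    φ.mapMatrix (Mx c x) = Mx (fun e => φ (c e)) (fun i => φ (x i)) := by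
  ext r b
  simp only [RingHom.mapMatrix_apply, Matrix.map_apply, Mx, map_lx, map_single]

theorem map_Nx (c : Ix m → S) (y : I m → S) :
    φ.mapMatrix (Nx c y) = Nx (fun e => φ (c e)) (fun i => φ (y i)) := by
  ext r b
  simp only [RingHom.mapMatrix_apply, Matrix.map_apply, Nx, map_ly, map_single]

theorem map_mulVec' {a : Type*} [Fintype a] [DecidableEq a] (M : Matrix a a S) (v : a → S) (i : a) :
    φ (M.mulVec v i) = (φ.mapMatrix M).mulVec (fun j => φ (v j)) i := by
  simp only [Matrix.mulVec, dotProduct, map_sum, map_mul, RingHom.mapMatrix_apply, Matrix.map_apply]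

theorem map_Y0 (c : Ix m → S) (x : I m → S) :
    (fun i => φ (Y0 c x i)) = Y0 (fun e => φ (c e)) (fun i => φ (x i)) := by
  funext i
  refine Fin.cases ?_ (fun i => Fin.cases ?_ (fun i => ?_) i) i
  · simp only [Y0, Fin.cons_zero, RingHom.map_det, map_Mx]
  · simp only [Y0, Fin.cons_zero, Fin.cons_succ, map_zero]
  · simp only [Y0, Fin.cons_succ, Pi.neg_apply, map_neg, map_mulVec', RingHom.map_adjugate, map_Mx,
      map_lx, map_single]

theorem map_Y1 (c : Ix m → S) (x : I m → S) :
    (fun i => φ (Y1 c x i)) = Y1 (fun e => φ (c e)) (fun i => φ (x i)) := by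
  funext i
  refine Fin.cases ?_ (fun i => Fin.cases ?_ (fun i => ?_) i) i
  · simp only [Y1, Fin.cons_zero, map_zero]
  · simp only [Y1, Fin.cons_zero, Fin.cons_succ, RingHom.map_det, map_Mx]
  · simp only [Y1, Fin.cons_succ, Pi.neg_apply, map_neg, map_mulVec', RingHom.map_adjugate, map_Mx,
      map_lx, map_single]

theorem map_yh (c : Ix m → S) (x : I m → S) (z : S) :
    (fun i => φ (yh c x z i)) = yh (fun e => φ (c e)) (fun i => φ (x i)) (φ z) := by
  funext i
  have h0 : φ (Y0 c x i) = _ := congrFun (map_Y0 φ c x) i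
  have h1 : φ (Y1 c x i) = _ := congrFun (map_Y1 φ c x) i
  simp only [yh, map_add, map_mul, h0, h1]

theorem map_vh (c : Ix m → S) (y : I m → S) :
    (fun i => φ (vh c y i)) = vh (fun e => φ (c e)) (fun i => φ (y i)) := by
  funext i
  refine Fin.lastCases ?_ (fun i => ?_) i
  · simp only [vh, Fin.snoc_last, RingHom.map_det, map_Nx]
  · simp only [vh, Fin.snoc_castSucc, Pi.neg_apply, map_neg, map_mulVec', RingHom.map_adjugate, map_Nx,
      map_ly, map_single]

theorem map_xh (c : Ix m → S) (y : I m → S) :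
    (fun i => φ (xh c y i)) = xh (fun e => φ (c e)) (fun i => φ (y i)) := by
  funext i
  refine Fin.cases ?_ (fun i => ?_) i
  · simp only [xh, Fin.cons_zero, map_zero]
  · simp only [xh, Fin.cons_succ]
    exact congrFun (map_vh φ c y) i

theorem map_nx (c : Ix m → S) (x y : I m → S) :
    (fun i => φ (nx c x y i)) = nx (fun e => φ (c e)) (fun i => φ (x i)) (fun i => φ (y i)) := by
  funext i
  have h0 : φ (xh c y i) = _ := congrFun (map_xh φ c y) i
  simp only [nx, map_sub, map_mul, map_sf, map_ofNat, map_xh, h0]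

theorem map_Fh (c : Ix m → S) (x : I m → S) (z : S) :
    φ (Fh c x z) = Fh (fun e => φ (c e)) (fun i => φ (x i)) (φ z) := by
  simp only [Fh, map_tf, map_yh]

theorem map_Ah (c : Ix m → S) (x : I m → S) :
    φ (Ah c x) = Ah (fun e => φ (c e)) (fun i => φ (x i)) := by
  simp only [Ah, map_tf, map_Y1]

theorem map_Bh (c : Ix m → S) (x : I m → S) :
    φ (Bh c x) = Bh (fun e => φ (c e)) (fun i => φ (x i)) := by
  simp only [Bh, map_tf, map_Y0, map_Y1]

theorem map_Ch (c : Ix m → S) (x : I m → S) :
    φ (Ch c x) = Ch (fun e => φ (c e)) (fun i => φ (x i)) := by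
  simp only [Ch, map_tf, map_Y0]

theorem map_ny (c : Ix m → S) (x y : I m → S) :
    (fun i => φ (ny c x y i)) = ny (fun e => φ (c e)) (fun i => φ (x i)) (fun i => φ (y i)) := by
  funext i
  have h1 : φ (Y1 c x i) = _ := congrFun (map_Y1 φ c x) i
  simp only [ny, map_sub, map_mul, map_tf, map_ofNat, map_Ah, map_Y1, h1]

theorem map_psh (c : Ix m → S) (x : I m → S) (z : S) :
    φ (psh c x z) = psh (fun e => φ (c e)) (fun i => φ (x i)) (φ z) := by
  simp only [psh, map_sf, map_xh, map_yh]

theorem map_kah (c : Ix m → S) (x : I m → S) (z : S) :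
    φ (kah c x z) = kah (fun e => φ (c e)) (fun i => φ (x i)) (φ z) := by
  simp only [kah, map_sf, map_xh, map_yh]

theorem map_tail (M : Matrix (Fin m) (Fin m) S) (v : Fin m → S) :
    (fun i => φ ((Fin.cons 0 (Fin.cons 0 (M.mulVec v)) : I m → S) i)) =
      Fin.cons 0 (Fin.cons 0 ((φ.mapMatrix M).mulVec fun r => φ (v r))) := by
  funext i
  refine Fin.cases ?_ (fun i => Fin.cases ?_ (fun i => ?_) i) i
  · simp only [Fin.cons_zero, map_zero]
  · simp only [Fin.cons_zero, Fin.cons_succ, map_zero]
  · simp only [Fin.cons_succ, map_mulVec']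

theorem map_tail' (M : Matrix (Fin m) (Fin m) S) (v : Fin m → S) :
    (fun i => φ ((Fin.cons 0 (Fin.cons 0 (- (M.mulVec v))) : I m → S) i)) =
      Fin.cons 0 (Fin.cons 0 (- ((φ.mapMatrix M).mulVec fun r => φ (v r)))) := by
  funext i
  refine Fin.cases ?_ (fun i => Fin.cases ?_ (fun i => ?_) i) i
  · simp only [Fin.cons_zero, map_zero]
  · simp only [Fin.cons_zero, Fin.cons_succ, map_zero]
  · simp only [Fin.cons_succ, Pi.neg_apply, map_neg, map_mulVec']

theorem map_ite' (r : Fin m) : φ (if r.val + 1 < m then (0 : S) else 1) =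
    if r.val + 1 < m then 0 else 1 := by
  split_ifs
  · exact map_zero φ
  · exact map_one φ

theorem map_th (c : Ix m → S) (x : I m → S) (z : S) :
    φ (th c x z) = th (fun e => φ (c e)) (fun i => φ (x i)) (φ z) := by
  simp only [th, map_mul, map_neg, map_ofNat, map_tf, map_yh, map_tail, RingHom.map_adjugate, map_Mx,
    map_ite']

theorem map_qh (c : Ix m → S) (x ξ : I m → S) (z : S) :
    φ (qh c x ξ z) = qh (fun e => φ (c e)) (fun i => φ (x i)) (fun i => φ (ξ i)) (φ z) := by
  simp only [qh, map_mul, map_add, map_tf, map_yh, map_ofNat, RingHom.map_det, map_Mx, map_tail',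
    RingHom.map_adjugate, map_dl]

theorem map_qa (c : Ix m → S) (x ξ : I m → S) :
    φ (qa c x ξ) = qa (fun e => φ (c e)) (fun i => φ (x i)) (fun i => φ (ξ i)) := by
  simp only [qa, map_mul, map_add, map_tf, map_Y1, map_ofNat, RingHom.map_det, map_Mx, map_tail',
    RingHom.map_adjugate, map_dl]

theorem map_xz (c : Ix m → S) (u : Fin (m + 1) → S) (z : S) :
    (fun i => φ (xz c u z i)) = xz (fun e => φ (c e)) (fun i => φ (u i)) (φ z) := by
  simp only [xz, map_xh, map_yh, map_aff]

theorem psP_map (c : Ix m → S) (x : I m → S) :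
    (psP c x).map φ = psP (fun e => φ (c e)) (fun i => φ (x i)) := by
  have h := map_psh (Polynomial.mapRingHom φ) (fun e => Polynomial.C (c e))
    (fun i => Polynomial.C (x i)) Polynomial.X
  simpa only [psP, Polynomial.coe_mapRingHom, Polynomial.map_C, Polynomial.map_X] using h

theorem psP_eval (c : Ix m → S) (x : I m → S) (z : S) : (psP c x).eval z = psh c x z := by
  have h := map_psh (Polynomial.evalRingHom z) (fun e => Polynomial.C (c e))
    (fun i => Polynomial.C (x i)) Polynomial.X
  simpa only [psP, Polynomial.coe_evalRingHom, Polynomial.eval_C, Polynomial.eval_X] using h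

end Pool.Agent.Helper94.H2
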