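import Pool.Agent.Helper94.H2.Loc
import Pool.Agent.Helper94.H2.Ref
import Pool.Agent.Helper94.HN.Dir

/-!
# Directional derivatives of the local data (type 2)
-/

namespace Pool.Agent.Helper94.H2

open Pool.Agent.Helper28.HN (I aff cr)
open Pool.Agent.Helper24.H2 Pool.Agent.Helper24.HN

variable {p : ℕ} [Fact p.Prime] {m : ℕ}

/-- The polynomial line. -/
noncomputable def lin' (x v : Fin (m + 1) → ℤ_[p]) : I m → Polynomial ℤ_[p] :=
  fun i => Polynomial.C (aff x i) + Polynomial.X * Polynomial.C ((Fin.cons 0 v : I m → ℤ_[p]) i)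

/-- Substitution of the polynomial line. -/
noncomputable def sub (x v : Fin (m + 1) → ℤ_[p]) :
    MvPolynomial (Fin (m + 1)) ℤ_[p] →+* Polynomial ℤ_[p] :=
  (MvPolynomial.aeval (R := ℤ_[p]) (fun i => Polynomial.C (x i) + Polynomial.X * Polynomial.C (v i)) :
      MvPolynomial (Fin (m + 1)) ℤ_[p] →ₐ[ℤ_[p]] Polynomial ℤ_[p]).toRingHom

theorem sub_C (x v : Fin (m + 1) → ℤ_[p]) (a : ℤ_[p]) :
    sub x v (MvPolynomial.C a) = Polynomial.C a := MvPolynomial.aeval_C _ _

theorem sub_aff (x v : Fin (m + 1) → ℤ_[p]) :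
    (fun i => sub x v ((aff MvPolynomial.X : I m → MvPolynomial (Fin (m + 1)) ℤ_[p]) i)) =
      lin' x v := by
  funext i
  refine Fin.cases ?_ (fun i => ?_) i
  · simp [aff, lin', sub]
  · simp [aff, lin', sub]

theorem eval0 (x v : Fin (m + 1) → ℤ_[p]) :
    (fun i => (lin' x v i).eval 0) = aff x := by
  funext i
  simp [lin']

theorem sub_D (c : Ix m → ℤ_[p]) (x v : Fin (m + 1) → ℤ_[p]) :
    sub x v (Mx (fun e => MvPolynomial.C (c e)) (aff MvPolynomial.X)).det =
      (Mx (fun e => Polynomial.C (c e)) (lin' x v)).det := by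
  rw [RingHom.map_det, map_Mx, sub_aff]
  simp only [sub_C]

theorem sub_AP (c : Ix m → ℤ_[p]) (x v : Fin (m + 1) → ℤ_[p]) :
    sub x v (AP c) = (Mx (fun e => Polynomial.C (c e)) (lin' x v)).det *
      Ah (fun e => Polynomial.C (c e)) (lin' x v) := by
  rw [AP, map_mul, sub_D, map_Ah, sub_aff]
  simp only [sub_C]

theorem sub_BP (c : Ix m → ℤ_[p]) (x v : Fin (m + 1) → ℤ_[p]) :
    sub x v (BP c) = (Mx (fun e => Polynomial.C (c e)) (lin' x v)).det *
      (2 * Bh (fun e => Polynomial.C (c e)) (lin' x v)) := by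
  rw [BP, map_mul, sub_D, map_mul, map_ofNat, map_Bh, sub_aff]
  simp only [sub_C]

theorem sub_CP (c : Ix m → ℤ_[p]) (x v : Fin (m + 1) → ℤ_[p]) :
    sub x v (CP c) = (Mx (fun e => Polynomial.C (c e)) (lin' x v)).det *
      Ch (fun e => Polynomial.C (c e)) (lin' x v) := by
  rw [CP, map_mul, sub_D, map_Ch, sub_aff]
  simp only [sub_C]

theorem dP_sub (P : MvPolynomial (Fin (m + 1)) ℤ_[p]) (x v : Fin (m + 1) → ℤ_[p]) :
    Pool.Agent.Helper94.HN.dP P x v = (sub x v P).derivative.eval 0 := by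
  rw [Pool.Agent.Helper94.HN.dP_apply, ← (Pool.Agent.Helper94.HN.deriv_line P x v).1]
  rfl

theorem eval_D (c : Ix m → ℤ_[p]) (x v : Fin (m + 1) → ℤ_[p]) :
    (Mx (fun e => Polynomial.C (c e)) (lin' x v)).det.eval 0 = (Mx c (aff x)).det := by
  have h := RingHom.map_det (Polynomial.evalRingHom (0 : ℤ_[p]))
    (Mx (fun e => Polynomial.C (c e)) (lin' x v))
  rw [map_Mx] at h
  simp only [Polynomial.coe_evalRingHom, Polynomial.eval_C, eval0] at h
  exact h

theorem eval_A (c : Ix m → ℤ_[p]) (x v : Fin (m + 1) → ℤ_[p]) :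
    (Ah (fun e => Polynomial.C (c e)) (lin' x v)).eval 0 = Ah c (aff x) := by
  have h := map_Ah (Polynomial.evalRingHom (0 : ℤ_[p])) (fun e => Polynomial.C (c e)) (lin' x v)
  simp only [Polynomial.coe_evalRingHom, Polynomial.eval_C, eval0] at h
  exact h

theorem eval_F (c : Ix m → ℤ_[p]) (x v : Fin (m + 1) → ℤ_[p]) (z : ℤ_[p]) :
    (Fh (fun e => Polynomial.C (c e)) (lin' x v) (Polynomial.C z)).eval 0 = Fh c (aff x) z := by
  have h := map_Fh (Polynomial.evalRingHom (0 : ℤ_[p])) (fun e => Polynomial.C (c e)) (lin' x v)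
    (Polynomial.C z)
  simp only [Polynomial.coe_evalRingHom, Polynomial.eval_C, eval0] at h
  exact h

theorem dA_line (c : Ix m → ℤ_[p]) (x v : Fin (m + 1) → ℤ_[p]) :
    (loc c).dA x v = (Mx c (aff x)).det *
      (Ah (fun e => Polynomial.C (c e)) (lin' x v)).derivative.eval 0 +
      (Mx (fun e => Polynomial.C (c e)) (lin' x v)).det.derivative.eval 0 * Ah c (aff x) := by
  rw [loc_dA, dP_sub, sub_AP, Polynomial.derivative_mul, Polynomial.eval_add, Polynomial.eval_mul,
    Polynomial.eval_mul, eval_D, eval_A]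
  ring

theorem dF_line (c : Ix m → ℤ_[p]) (x v : Fin (m + 1) → ℤ_[p]) (z : ℤ_[p]) :
    (loc c).dF x v z = (Mx c (aff x)).det *
      (Fh (fun e => Polynomial.C (c e)) (lin' x v) (Polynomial.C z)).derivative.eval 0 +
      (Mx (fun e => Polynomial.C (c e)) (lin' x v)).det.derivative.eval 0 * Fh c (aff x) z := by
  have h : (loc c).dF x v z = (loc c).dA x v * z ^ 2 + (loc c).dB x v * z + (loc c).dC x v := rfl
  have h1 : (loc c).dF x v z = ((Mx (fun e => Polynomial.C (c e)) (lin' x v)).det *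
      Fh (fun e => Polynomial.C (c e)) (lin' x v) (Polynomial.C z)).derivative.eval 0 := by
    have h2 : (Mx (fun e => Polynomial.C (c e)) (lin' x v)).det *
        Fh (fun e => Polynomial.C (c e)) (lin' x v) (Polynomial.C z) =
        sub x v (AP c) * Polynomial.C (z ^ 2) + sub x v (BP c) * Polynomial.C z +
          sub x v (CP c) := by
      rw [sub_AP, sub_BP, sub_CP, Fh_eq, map_pow]
      ring
    have h4 : ∀ (P : Polynomial ℤ_[p]) (a : ℤ_[p]), (P * Polynomial.C a).derivative.eval 0 =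
        P.derivative.eval 0 * a := by
      intro P a
      rw [Polynomial.derivative_mul, Polynomial.derivative_C, mul_zero, add_zero, Polynomial.eval_mul,
        Polynomial.eval_C]
    rw [h2, Polynomial.derivative_add, Polynomial.derivative_add, Polynomial.eval_add,
      Polynomial.eval_add, h4, h4, h, loc_dA, loc_dB, loc_dC, dP_sub, dP_sub, dP_sub]
  rw [h1, Polynomial.derivative_mul, Polynomial.eval_add, Polynomial.eval_mul, Polynomial.eval_mul,
    eval_D, eval_F]
  ring

end Pool.Agent.Helper94.H2
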